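import Pool.Agent.R34.DP.Stm

/-!
Piece DBL of the directed Poincare inequality project (MP_04ae38_an): doubling of the exchange
bound.
-/

open MeasureTheory ProbabilityTheory Set Filter
open scoped NNReal ENNReal Topology

namespace R316.DP

open R34.DP

/-- measurable and bounded -/
def BM {Z : Type} [MeasurableSpace Z] (F : Z → ℝ) : Prop :=
  Measurable F ∧ ∃ B : ℝ, ∀ x, |F x| ≤ B

section basic

variable {Z : Type} [MeasurableSpace Z]

lemma BM.integrable {F : Z → ℝ} (h : BM F) (μ : Measure Z) [IsFiniteMeasure μ] :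
    Integrable F μ := by
  obtain ⟨hm, B, hB⟩ := h
  exact Integrable.of_bound hm.aestronglyMeasurable B (Eventually.of_forall hB)

lemma BM.comp {Y : Type} [MeasurableSpace Y] {F : Z → ℝ} (h : BM F) {g : Y → Z}
    (hg : Measurable g) : BM (fun y => F (g y)) :=
  ⟨h.1.comp hg, h.2.choose, fun y => h.2.choose_spec (g y)⟩

lemma BM.abs {F : Z → ℝ} (h : BM F) : BM (fun y => |F y|) :=
  ⟨h.1.abs, h.2.choose, fun y => by rw [abs_abs]; exact h.2.choose_spec y⟩

lemma BM.sub {F G : Z → ℝ} (h : BM F) (h' : BM G) : BM (fun y => F y - G y) := by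
  obtain ⟨hm, B, hB⟩ := h
  obtain ⟨hm', B', hB'⟩ := h'
  exact ⟨hm.sub hm', B + B', fun y => (abs_sub _ _).trans (add_le_add (hB y) (hB' y))⟩

lemma BM.add {F G : Z → ℝ} (h : BM F) (h' : BM G) : BM (fun y => F y + G y) := by
  obtain ⟨hm, B, hB⟩ := h
  obtain ⟨hm', B', hB'⟩ := h'
  exact ⟨hm.add hm', B + B', fun y => (abs_add_le _ _).trans (add_le_add (hB y) (hB' y))⟩

end basic

section adm

variable {Z : Type} [PseudoMetricSpace Z]

lemma adm_bm [MeasurableSpace Z] [OpensMeasurableSpace Z] {F : Z → ℝ} (h : Adm F) : BM F := by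
  obtain ⟨⟨K, hK⟩, hB⟩ := h
  exact ⟨hK.continuous.measurable, hB⟩

lemma adm_comp_lip {Y : Type} [PseudoMetricSpace Y] {F : Z → ℝ} (h : Adm F) {g : Y → Z} {L : ℝ≥0}
    (hg : LipschitzWith L g) : Adm (fun y => F (g y)) := by
  obtain ⟨⟨K, hK⟩, B, hB⟩ := h
  exact ⟨⟨K * L, hK.comp hg⟩, B, fun y => hB (g y)⟩

end adm

section good

variable {X : Type} [NormedAddCommGroup X] [PartialOrder X] [MeasurableSpace X]
  {μ : Measure X} {T : (X → ℝ) → X → ℝ} {C : ℝ≥0}

/-- comparison in sup norm -/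
lemma good_sup (hT : GoodOp μ T C) {F G : X → ℝ} (hF : Adm F) (hG : Adm G) {d : ℝ}
    (h : ∀ x, |F x - G x| ≤ d) (x : X) : |T F x - T G x| ≤ d := by
  have key : ∀ F G : X → ℝ, Adm F → Adm G → (∀ x, |F x - G x| ≤ d) → T F x ≤ T G x + d := by
    intro F G hF hG h
    have hG' : Adm (fun x => G x + d) := by
      obtain ⟨⟨K, hK⟩, B, hB⟩ := hG
      refine ⟨⟨K, ?_⟩, B + |d|, fun x => (abs_add_le _ _).trans (by linarith [hB x])⟩
      have := hK.add (LipschitzWith.const (α := X) d)
      simpa using this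
    have h1 := hT.lower 0 le_rfl (fun x => G x + d) F hG' hF
      (fun x => by have := (abs_le.1 (h x)).2; simp only [add_zero]; linarith) x
    rw [hT.const d G hG] at h1
    simpa using h1
  rw [abs_le]
  constructor
  · have := key G F hG hF (fun x => by rw [abs_sub_comm]; exact h x)
    linarith
  · have := key F G hF hG h
    linarith

/-- the operator applied in one variable of a family depending on a parameter -/
lemma adm_gen (hT : GoodOp μ T C) {Z : Type} [PseudoMetricSpace Z] (Φ : X → Z → ℝ) (π : Z → X)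
    (hΦ : Adm (fun p : X × Z => Φ p.1 p.2)) (hπ : LipschitzWith 1 π) :
    Adm (fun z => T (fun x => Φ x z) (π z)) := by
  obtain ⟨⟨K, hK⟩, B, hB⟩ := hΦ
  have hsec : ∀ z, LipschitzWith K (fun x => Φ x z) := by
    intro z
    have := hK.comp (LipschitzWith.prodMk_right (α := X) z)
    simpa [Function.comp_def] using this
  have hadm : ∀ z, Adm (fun x => Φ x z) := fun z => ⟨⟨K, hsec z⟩, B, fun x => hB (x, z)⟩
  refine ⟨⟨C * K + K, LipschitzWith.of_dist_le_mul ?_⟩, B, fun z => ?_⟩
  · intro z z'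
    have h1 : dist (T (fun x => Φ x z) (π z)) (T (fun x => Φ x z) (π z')) ≤ (C * K : ℝ≥0) * dist z z' := by
      refine ((hT.lip K _ (hadm z) (hsec z)).dist_le_mul _ _).trans ?_
      have := hπ.dist_le_mul z z'
      simp only [NNReal.coe_one, one_mul] at this
      exact mul_le_mul_of_nonneg_left this (NNReal.coe_nonneg _)
    have h2 : dist (T (fun x => Φ x z) (π z')) (T (fun x => Φ x z') (π z')) ≤ K * dist z z' := by
      rw [Real.dist_eq]
      refine good_sup hT (hadm z) (hadm z') (fun x => ?_) _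
      have := hK.dist_le_mul (x, z) (x, z')
      rw [Real.dist_eq] at this
      refine this.trans (mul_le_mul_of_nonneg_left ?_ K.coe_nonneg)
      rw [Prod.dist_eq]
      simp
    calc _ ≤ _ := dist_triangle _ (T (fun x => Φ x z) (π z')) _
      _ ≤ (C * K : ℝ≥0) * dist z z' + K * dist z z' := add_le_add h1 h2
      _ = _ := by push_cast; ring
  · exact hT.bdd B _ (hadm z) (fun x => hB (x, z)) _

end good

section ng

variable {n : ℕ}

lemma ngrad_shift (f : (Fin n → ℝ) → ℝ) (ρ x : Fin n → ℝ) :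
    ngrad (fun v => f (v + ρ)) x = ngrad f (x + ρ) := by
  unfold ngrad
  rw [fderiv_comp_add_right]

lemma ngrad_nonneg (f : (Fin n → ℝ) → ℝ) (x : Fin n → ℝ) : 0 ≤ ngrad f x := Real.sqrt_nonneg _

lemma ngrad_bm {f : (Fin n → ℝ) → ℝ} (hf : Adm f) : BM (ngrad f) := by
  obtain ⟨⟨K, hK⟩, -⟩ := hf
  refine ⟨?_, Real.sqrt (∑ _i : Fin n, (K : ℝ) ^ 2), fun x => ?_⟩
  · unfold ngrad
    apply Measurable.sqrt
    refine Finset.measurable_sum _ (fun i _ => ?_)
    exact ((measurable_fderiv_apply_const ℝ f _).min measurable_const).pow_const 2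
  · rw [abs_of_nonneg (ngrad_nonneg f x)]
    unfold ngrad
    apply Real.sqrt_le_sqrt
    refine Finset.sum_le_sum (fun i _ => ?_)
    have h1 : |fderiv ℝ f x (Pi.single i 1)| ≤ K := by
      have h2 : ‖fderiv ℝ f x (Pi.single i 1)‖ ≤ ‖fderiv ℝ f x‖ * ‖(Pi.single i 1 : Fin n → ℝ)‖ :=
        (fderiv ℝ f x).le_opNorm _
      have h3 : ‖fderiv ℝ f x‖ ≤ K := norm_fderiv_le_of_lipschitz ℝ hK
      have h4 : ‖(Pi.single i 1 : Fin n → ℝ)‖ = 1 := by
        rw [Pi.norm_single]; simp
      rw [h4, mul_one] at h2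
      exact h2.trans h3
    have h5 := abs_le.1 h1
    have h6 : -(K : ℝ) ≤ min (fderiv ℝ f x (Pi.single i 1)) 0 := by
      rw [le_min_iff]; exact ⟨h5.1, by linarith [K.coe_nonneg]⟩
    have h7 : min (fderiv ℝ f x (Pi.single i 1)) 0 ≤ 0 := min_le_right _ _
    nlinarith [K.coe_nonneg]

end ng

section swap

variable {X : Type} [MeasurableSpace X]

/-- exchanging the second and the third variable -/
lemma mp_swap23 (μ : Measure X) [IsProbabilityMeasure μ] :
    MeasurePreserving (fun P : (X × X) × (X × X) => ((P.1.1, P.2.1), (P.1.2, P.2.2)))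
      ((μ.prod μ).prod (μ.prod μ)) ((μ.prod μ).prod (μ.prod μ)) := by
  have h1 : MeasurePreserving (MeasurableEquiv.prodAssoc : (X × X) × (X × X) ≃ᵐ X × (X × (X × X)))
      ((μ.prod μ).prod (μ.prod μ)) (μ.prod (μ.prod (μ.prod μ))) :=
    measurePreserving_prodAssoc μ μ (μ.prod μ)
  have h2 : MeasurePreserving (MeasurableEquiv.prodAssoc : (X × X) × X ≃ᵐ X × (X × X))
      ((μ.prod μ).prod μ) (μ.prod (μ.prod μ)) := measurePreserving_prodAssoc μ μ μ
  have h3 : MeasurePreserving (Prod.map Prod.swap id : (X × X) × X → (X × X) × X)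
      ((μ.prod μ).prod μ) ((μ.prod μ).prod μ) :=
    Measure.measurePreserving_swap.prod (MeasurePreserving.id μ)
  have h4 := (h2.comp h3).comp (h2.symm _)
  have h5 := (MeasurePreserving.id μ).prod h4
  have h6 := ((h1.symm _).comp h5).comp h1
  exact h6

lemma integral_swap23 (μ : Measure X) [IsProbabilityMeasure μ] {F : (X × X) × (X × X) → ℝ}
    (hF : BM F) :
    ∫ P, F ((P.1.1, P.2.1), (P.1.2, P.2.2)) ∂((μ.prod μ).prod (μ.prod μ)) =
      ∫ P, F P ∂((μ.prod μ).prod (μ.prod μ)) := by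
  have h := mp_swap23 μ
  conv_rhs => rw [← h.map_eq]
  rw [integral_map h.measurable.aemeasurable hF.1.aestronglyMeasurable]

end swap

section main

variable {X : Type} [NormedAddCommGroup X] [NormedSpace ℝ X] [PartialOrder X]
  [MeasurableSpace X] [BorelSpace X] [SecondCountableTopology X]
  {n : ℕ} {μ : Measure X} [IsProbabilityMeasure μ] {T : (X → ℝ) → X → ℝ} {C : ℝ≥0}
  {σ : X →L[ℝ] (Fin n → ℝ)} {c : ℝ}

set_option linter.unusedSectionVars false

lemma adm_shift {f : (Fin n → ℝ) → ℝ} (hf : Adm f) (ρ : Fin n → ℝ) :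
    Adm (fun v => f (v + ρ)) :=
  adm_comp_lip hf (L := 1) (LipschitzWith.of_dist_le_mul (fun a b => by simp))

lemma adm_lin {Z : Type} [NormedAddCommGroup Z] [NormedSpace ℝ Z] {f : (Fin n → ℝ) → ℝ}
    (hf : Adm f) (L : Z →L[ℝ] (Fin n → ℝ)) : Adm (fun z => f (L z)) :=
  adm_comp_lip hf L.lipschitz

/-- the exchange bound for a translated function -/
lemma exb_shift (hE : ExB n μ T σ c) {f : (Fin n → ℝ) → ℝ} (hf : Adm f) (ρ : Fin n → ℝ) :
    ∫ p : X × X, |T (fun u => f (σ u + σ p.2 + ρ)) p.1 - T (fun u => f (σ p.1 + σ u + ρ)) p.2|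
      ∂(μ.prod μ) ≤ c * ∫ p : X × X, ngrad f (σ p.1 + σ p.2 + ρ) ∂(μ.prod μ) := by
  have := hE (fun v => f (v + ρ)) (adm_shift hf ρ)
  simpa only [ngrad_shift] using this

/-- the difference of the double operator and of the operator in the first variable -/
lemma d1 (hL1 : S_L1) (hT : GoodOp μ T C) (hE : ExB n μ T σ c) {f : (Fin n → ℝ) → ℝ}
    (hf : Adm f) (ρ : Fin n → ℝ) :
    ∫ p : X × X, |prodOp T T (fun u => f (σ u.1 + σ u.2 + ρ)) p - T (fun u => f (σ u + σ p.2 + ρ)) p.1|
      ∂(μ.prod μ) ≤ 2 * (c * ∫ p : X × X, ngrad f (σ p.1 + σ p.2 + ρ) ∂(μ.prod μ)) := by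
  set Φ : X × X → ℝ := fun u => f (σ u.1 + σ u.2 + ρ) with hΦdef
  have hfρ : Adm (fun v => f (v + ρ)) := adm_shift hf ρ
  -- the two one variable operators
  have hA : Adm (op1 T Φ) := by
    have := adm_gen hT (Z := X × X) (fun x z => Φ (x, z.2)) Prod.fst
      (adm_lin hfρ (σ.comp (ContinuousLinearMap.fst ℝ X (X × X)) +
        σ.comp ((ContinuousLinearMap.snd ℝ X X).comp (ContinuousLinearMap.snd ℝ X (X × X)))))
      LipschitzWith.prod_fst
    exact this
  have hB : Adm (op2 T Φ) := by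
    have := adm_gen hT (Z := X × X) (fun x z => Φ (z.1, x)) Prod.snd
      (adm_lin hfρ (σ.comp ((ContinuousLinearMap.fst ℝ X X).comp (ContinuousLinearMap.snd ℝ X (X × X))) +
        σ.comp (ContinuousLinearMap.fst ℝ X (X × X))))
      LipschitzWith.prod_snd
    exact this
  have hAsec : ∀ x, Adm (fun y => op1 T Φ (x, y)) := fun x =>
    adm_comp_lip hA (LipschitzWith.prodMk_left x)
  have hBsec : ∀ x, Adm (fun y => op2 T Φ (x, y)) := fun x =>
    adm_comp_lip hB (LipschitzWith.prodMk_left x)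
  have hop2 : ∀ F : X × X → ℝ, Adm F → Adm (op2 T F) := by
    intro F hF
    have h1 : Adm (fun p : X × (X × X) => F (p.2.1, p.1)) := by
      refine adm_comp_lip hF (L := 1) ?_
      have := (LipschitzWith.prod_fst.comp (LipschitzWith.prod_snd (α := X) (β := X × X))).prodMk
        (LipschitzWith.prod_fst (α := X) (β := X × X))
      simpa using this
    exact adm_gen hT (Z := X × X) (fun x z => F (z.1, x)) Prod.snd h1 LipschitzWith.prod_snd
  have hfix : op2 T (op2 T Φ) = op2 T Φ := by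
    funext p
    have hsec : Adm (fun y => Φ (p.1, y)) := by
      have := adm_lin (Z := X) (adm_shift hf (σ p.1 + ρ)) σ
      convert this using 3 with y
      abel_nf
    have hmono : Monotone (fun y => op2 T Φ (p.1, y)) := hT.mono_out _ hsec
    have := hT.fix _ (hBsec p.1) hmono
    exact congrFun this p.2
  have hPA : Adm (prodOp T T Φ) := hop2 _ hA
  -- L1 contraction in the second variable
  have hL : ∫ p : X × X, |prodOp T T Φ p - op2 T Φ p| ∂(μ.prod μ) ≤
      ∫ p : X × X, |op1 T Φ p - op2 T Φ p| ∂(μ.prod μ) := by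
    have i1 : Integrable (fun p : X × X => |prodOp T T Φ p - op2 T Φ p|) (μ.prod μ) :=
      (BM.sub (adm_bm hPA) (adm_bm hB)).abs.integrable _
    have i2 : Integrable (fun p : X × X => |op1 T Φ p - op2 T Φ p|) (μ.prod μ) :=
      (BM.sub (adm_bm hA) (adm_bm hB)).abs.integrable _
    rw [integral_prod _ i1, integral_prod _ i2]
    refine integral_mono i1.integral_prod_left i2.integral_prod_left (fun x => ?_)
    have := hL1 X μ T C hT (fun y => op1 T Φ (x, y)) (fun y => op2 T Φ (x, y)) (hAsec x) (hBsec x)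
    have h2 : ∀ y, T (fun y => op2 T Φ (x, y)) y = op2 T Φ (x, y) := fun y =>
      congrFun hfix (x, y)
    simp only [h2] at this
    exact this
  have hEx := exb_shift hE hf ρ
  have hEx' : ∫ p : X × X, |op1 T Φ p - op2 T Φ p| ∂(μ.prod μ) ≤
      c * ∫ p : X × X, ngrad f (σ p.1 + σ p.2 + ρ) ∂(μ.prod μ) := hEx
  have htri : ∫ p : X × X, |prodOp T T Φ p - op1 T Φ p| ∂(μ.prod μ) ≤
      ∫ p : X × X, |prodOp T T Φ p - op2 T Φ p| ∂(μ.prod μ) +
      ∫ p : X × X, |op1 T Φ p - op2 T Φ p| ∂(μ.prod μ) := by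
    have i1 : Integrable (fun p : X × X => |prodOp T T Φ p - op2 T Φ p|) (μ.prod μ) :=
      (BM.sub (adm_bm hPA) (adm_bm hB)).abs.integrable _
    have i2 : Integrable (fun p : X × X => |op1 T Φ p - op2 T Φ p|) (μ.prod μ) :=
      (BM.sub (adm_bm hA) (adm_bm hB)).abs.integrable _
    rw [← integral_add i1 i2]
    refine integral_mono (((adm_bm hPA).sub (adm_bm hA)).abs.integrable _) (i1.add i2) (fun p => ?_)
    have := abs_sub_le (prodOp T T Φ p) (op2 T Φ p) (op1 T Φ p)
    rw [abs_sub_comm (op2 T Φ p) (op1 T Φ p)] at this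
    exact this
  have : ∫ p : X × X, |prodOp T T Φ p - op1 T Φ p| ∂(μ.prod μ) ≤
      2 * (c * ∫ p : X × X, ngrad f (σ p.1 + σ p.2 + ρ) ∂(μ.prod μ)) := by linarith
  exact this

/-- piece DBL -/
theorem t_DBL : S_PROD → S_L1 → S_DBL := by
  intro hP hL1 X _ _ _ _ _ _ n μ _ T C σ c hT hE f hf
  obtain ⟨C', hT'⟩ := hP X X μ μ T T C C hT hT
  set ν : Measure (X × X) := μ.prod μ with hν
  -- the five functions
  set U1 : (X × X) × (X × X) → ℝ := fun P => prodOp T T (fun u => f (dbl σ u + dbl σ P.2)) P.1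
    with hU1
  set U2 : (X × X) × (X × X) → ℝ := fun P => prodOp T T (fun u => f (dbl σ P.1 + dbl σ u)) P.2
    with hU2
  set V1 : (X × X) × (X × X) → ℝ := fun P => T (fun u => f (σ u + σ P.1.2 + dbl σ P.2)) P.1.1
    with hV1
  set V2 : (X × X) × (X × X) → ℝ := fun P => T (fun u => f (σ u + σ P.2.2 + dbl σ P.1)) P.2.1
    with hV2
  set G : (X × X) × (X × X) → ℝ := fun P => ngrad f (dbl σ P.1 + dbl σ P.2) with hG
  have dblap : ∀ u : X × X, dbl σ u = σ u.1 + σ u.2 := fun u => rfl
  -- they are bounded and Lipschitz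
  have aU1 : Adm U1 := by
    have := adm_gen hT' (Z := (X × X) × (X × X)) (fun x z => f (dbl σ x + dbl σ z.2)) Prod.fst
      (adm_lin hf ((dbl σ).comp (ContinuousLinearMap.fst ℝ (X × X) ((X × X) × (X × X))) +
        (dbl σ).comp ((ContinuousLinearMap.snd ℝ (X × X) (X × X)).comp
          (ContinuousLinearMap.snd ℝ (X × X) ((X × X) × (X × X))))))
      LipschitzWith.prod_fst
    exact this
  have aU2 : Adm U2 := by
    have := adm_gen hT' (Z := (X × X) × (X × X)) (fun x z => f (dbl σ z.1 + dbl σ x)) Prod.snd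
      (adm_lin hf ((dbl σ).comp ((ContinuousLinearMap.fst ℝ (X × X) (X × X)).comp
          (ContinuousLinearMap.snd ℝ (X × X) ((X × X) × (X × X)))) +
        (dbl σ).comp (ContinuousLinearMap.fst ℝ (X × X) ((X × X) × (X × X)))))
      LipschitzWith.prod_snd
    exact this
  have aV1 : Adm V1 := by
    have h1 : LipschitzWith 1 (fun P : (X × X) × (X × X) => P.1.1) := by
      have := (LipschitzWith.prod_fst (α := X) (β := X)).comp
        (LipschitzWith.prod_fst (α := X × X) (β := X × X))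
      rw [mul_one] at this
      exact this
    have := adm_gen hT (Z := (X × X) × (X × X)) (fun x z => f (σ x + σ z.1.2 + dbl σ z.2))
      (fun P => P.1.1)
      (adm_lin hf (σ.comp (ContinuousLinearMap.fst ℝ X ((X × X) × (X × X))) +
        σ.comp ((ContinuousLinearMap.snd ℝ X X).comp ((ContinuousLinearMap.fst ℝ (X × X) (X × X)).comp
          (ContinuousLinearMap.snd ℝ X ((X × X) × (X × X))))) +
        (dbl σ).comp ((ContinuousLinearMap.snd ℝ (X × X) (X × X)).comp
          (ContinuousLinearMap.snd ℝ X ((X × X) × (X × X)))))) h1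
    exact this
  have aV2 : Adm V2 := by
    have h1 : LipschitzWith 1 (fun P : (X × X) × (X × X) => P.2.1) := by
      have := (LipschitzWith.prod_fst (α := X) (β := X)).comp
        (LipschitzWith.prod_snd (α := X × X) (β := X × X))
      rw [mul_one] at this
      exact this
    have := adm_gen hT (Z := (X × X) × (X × X)) (fun x z => f (σ x + σ z.2.2 + dbl σ z.1))
      (fun P => P.2.1)
      (adm_lin hf (σ.comp (ContinuousLinearMap.fst ℝ X ((X × X) × (X × X))) +
        σ.comp ((ContinuousLinearMap.snd ℝ X X).comp ((ContinuousLinearMap.snd ℝ (X × X) (X × X)).comp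
          (ContinuousLinearMap.snd ℝ X ((X × X) × (X × X))))) +
        (dbl σ).comp ((ContinuousLinearMap.fst ℝ (X × X) (X × X)).comp
          (ContinuousLinearMap.snd ℝ X ((X × X) × (X × X)))))) h1
    exact this
  have bG : BM G := (ngrad_bm hf).comp ((dbl σ).continuous.measurable.comp measurable_fst |>.add
    ((dbl σ).continuous.measurable.comp measurable_snd))
  have iG : Integrable G (ν.prod ν) := bG.integrable _
  have i1 : Integrable (fun P => |U1 P - V1 P|) (ν.prod ν) :=
    (BM.sub (adm_bm aU1) (adm_bm aV1)).abs.integrable _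
  have i2 : Integrable (fun P => |V1 P - V2 P|) (ν.prod ν) :=
    (BM.sub (adm_bm aV1) (adm_bm aV2)).abs.integrable _
  have i3 : Integrable (fun P => |U2 P - V2 P|) (ν.prod ν) :=
    (BM.sub (adm_bm aU2) (adm_bm aV2)).abs.integrable _
  -- first part
  have s1 : ∫ P, |U1 P - V1 P| ∂(ν.prod ν) ≤ 2 * (c * ∫ P, G P ∂(ν.prod ν)) := by
    rw [integral_prod_symm _ i1, integral_prod_symm _ iG, ← integral_const_mul, ← integral_const_mul]
    refine integral_mono i1.integral_prod_right
      ((iG.integral_prod_right.const_mul c).const_mul 2) (fun q => ?_)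
    have := d1 hL1 hT hE hf (dbl σ q)
    exact this
  -- third part
  have s3 : ∫ P, |U2 P - V2 P| ∂(ν.prod ν) ≤ 2 * (c * ∫ P, G P ∂(ν.prod ν)) := by
    rw [integral_prod _ i3, integral_prod _ iG, ← integral_const_mul, ← integral_const_mul]
    refine integral_mono i3.integral_prod_left
      ((iG.integral_prod_left.const_mul c).const_mul 2) (fun p => ?_)
    have := d1 hL1 hT hE hf (dbl σ p)
    have e1 : ∀ q : X × X, dbl σ p + dbl σ q = σ q.1 + σ q.2 + dbl σ p := fun q => by
      rw [dblap q, add_comm]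
    simp only [hU2, hV2, hG, e1]
    exact this
  -- middle part
  have s2 : ∫ P, |V1 P - V2 P| ∂(ν.prod ν) ≤ c * ∫ P, G P ∂(ν.prod ν) := by
    have bD : BM (fun P => |V1 P - V2 P|) := (BM.sub (adm_bm aV1) (adm_bm aV2)).abs
    rw [← integral_swap23 μ bD, ← integral_swap23 μ bG]
    have j1 := (bD.comp (mp_swap23 μ).measurable).integrable (ν.prod ν)
    have j2 := (bG.comp (mp_swap23 μ).measurable).integrable (ν.prod ν)
    rw [integral_prod_symm _ j1, integral_prod_symm _ j2, ← integral_const_mul]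
    refine integral_mono j1.integral_prod_right (j2.integral_prod_right.const_mul c) (fun q => ?_)
    have := exb_shift hE hf (dbl σ q)
    have e1 : ∀ (u : X) (p : X × X), σ u + σ q.1 + dbl σ (p.2, q.2) = σ u + σ p.2 + dbl σ q :=
      fun u p => by simp only [dblap]; abel
    have e2 : ∀ (u : X) (p : X × X), σ u + σ q.2 + dbl σ (p.1, q.1) = σ p.1 + σ u + dbl σ q :=
      fun u p => by simp only [dblap]; abel
    have e3 : ∀ (p : X × X), dbl σ (p.1, q.1) + dbl σ (p.2, q.2) = σ p.1 + σ p.2 + dbl σ q :=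
      fun p => by simp only [dblap]; abel
    simp only [hV1, hV2, hG, e1, e2, e3]
    exact this
  have htri : ∫ P, |U1 P - U2 P| ∂(ν.prod ν) ≤ ∫ P, |U1 P - V1 P| ∂(ν.prod ν) +
      ∫ P, |V1 P - V2 P| ∂(ν.prod ν) + ∫ P, |U2 P - V2 P| ∂(ν.prod ν) := by
    have i12 : Integrable (fun P => |U1 P - V1 P| + |V1 P - V2 P|) (ν.prod ν) := i1.add i2
    have i123 : Integrable (fun P => |U1 P - V1 P| + |V1 P - V2 P| + |U2 P - V2 P|) (ν.prod ν) :=
      i12.add i3
    rw [← integral_add i1 i2, ← integral_add i12 i3]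
    refine integral_mono ((BM.sub (adm_bm aU1) (adm_bm aU2)).abs.integrable _)
      i123 (fun P => ?_)
    have h1 := abs_sub_le (U1 P) (V1 P) (U2 P)
    have h2 := abs_sub_le (V1 P) (V2 P) (U2 P)
    rw [abs_sub_comm (V2 P) (U2 P)] at h2
    show |U1 P - U2 P| ≤ |U1 P - V1 P| + |V1 P - V2 P| + |U2 P - V2 P|
    linarith
  have : ∫ P, |U1 P - U2 P| ∂(ν.prod ν) ≤ 5 * c * ∫ P, G P ∂(ν.prod ν) := by linarith
  exact this

end main

end R316.DP
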